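import Pool.Agent.H51.MO.TargetsA

/-! Row A_PAR of the board `mo_modules` (helper63): choice of the parameters. -/

namespace Pool.Agent.H63.MO

open Finset Filter
open Pool.Agent.H51.MO

lemma apar_ev (C y : ℝ) (hy : 0 < y) : ∃ n₀ : ℕ, ∀ n : ℕ, n₀ ≤ n → C ≤ (n : ℝ) ^ y := by
  have h := ((tendsto_rpow_atTop hy).comp tendsto_natCast_atTop_atTop).eventually_ge_atTop C
  exact eventually_atTop.1 h

/-- the exponent of the main line -/
lemma apar_exp (k : ℕ) (α η : ℝ) (hη : 4 * η = ((k : ℝ) - 2) - α * (k + 4)) :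
    2 * α + 1 + η + (α - 1) / 2 * k = -η := by
  nlinarith

/-- logarithms -/
lemma apar_log (n : ℕ) (hn : 2 ≤ n) : 1 ≤ Real.logb 2 n ∧ (n : ℝ) = 2 ^ (Real.logb 2 n) := by
  have h2 : (2 : ℝ) ≤ n := by exact_mod_cast hn
  constructor
  · have := Real.logb_le_logb_of_le (b := 2) (by norm_num) (by norm_num : (0 : ℝ) < 2) h2
    rwa [Real.logb_self_eq_one (by norm_num)] at this
  · rw [Real.rpow_logb (by norm_num) (by norm_num) (by linarith)]

/-- the main line: moments -/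
lemma apar_main (k K0 n b q w : ℕ) (α η : ℝ) (hk : 3 ≤ k) (hη0 : 0 < η)
    (hη : 4 * η = ((k : ℝ) - 2) - α * (k + 4))
    (hn2 : 2 ≤ n) (hb : (n : ℝ) / (2 * k) ≤ b)
    (hm : ((K0 * (k * b) : ℕ) : ℝ) ≤ K0 * n)
    (hq : (q : ℝ) ≤ (2 * (k + 2) / η + 2) * (n : ℝ) ^ α)
    (hw : (w : ℝ) + 1 ≤ (4 / η + 1) * (n : ℝ) ^ α)
    (hC : 20 * (4 / η + 1) ^ 2 * K0 * Real.sqrt (256 * k * (2 * (k + 2) / η + 2)) ^ k ≤
      (n : ℝ) ^ η) :
    ((K0 * (k * b) : ℕ) : ℝ) * (n : ℝ) ^ η * Real.sqrt (128 * q / b) ^ k ≤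
      (1 / (2 * ((w : ℝ) + 1))) ^ 2 / 5 := by
  have hn0 : (0 : ℝ) < n := by
    have : (2 : ℝ) ≤ n := by exact_mod_cast hn2
    linarith
  have hk0 : (0 : ℝ) < k := by
    have : (3 : ℝ) ≤ k := by exact_mod_cast hk
    linarith
  have hb0 : (0 : ℝ) < b := lt_of_lt_of_le (by positivity) hb
  set C1 : ℝ := 2 * (k + 2) / η + 2 with hC1
  have hC10 : 0 < C1 := by positivity
  have hw0 : (0 : ℝ) < (w : ℝ) + 1 := by positivity
  have hx : 128 * (q : ℝ) / b ≤ 256 * k * C1 * (n : ℝ) ^ (α - 1) := by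
    rw [div_le_iff₀ hb0]
    have e1 : (n : ℝ) ^ (α - 1) = (n : ℝ) ^ α / n := by
      rw [Real.rpow_sub hn0, Real.rpow_one]
    rw [e1]
    have h2 : 256 * k * C1 * ((n : ℝ) ^ α / n) * (n / (2 * k)) = 128 * (C1 * (n : ℝ) ^ α) := by
      field_simp
      ring
    have h3 : 256 * k * C1 * ((n : ℝ) ^ α / n) * (n / (2 * k)) ≤
        256 * k * C1 * ((n : ℝ) ^ α / n) * b :=
      mul_le_mul_of_nonneg_left hb (by positivity)
    rw [h2] at h3
    linarith [mul_le_mul_of_nonneg_left hq (by norm_num : (0 : ℝ) ≤ 128)]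
  have hs : Real.sqrt (128 * q / b) ^ k ≤
      Real.sqrt (256 * k * C1) ^ k * (n : ℝ) ^ ((α - 1) / 2 * k) := by
    have h4 : Real.sqrt (128 * q / b) ≤ Real.sqrt (256 * k * C1) * (n : ℝ) ^ ((α - 1) / 2) := by
      refine (Real.sqrt_le_sqrt hx).trans ?_
      rw [Real.sqrt_mul (by positivity), Real.sqrt_eq_rpow ((n : ℝ) ^ (α - 1)),
        ← Real.rpow_mul hn0.le]
      apply le_of_eq
      congr 2
      ring
    have h5 := pow_le_pow_left₀ (Real.sqrt_nonneg _) h4 k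
    rw [mul_pow, ← Real.rpow_natCast ((n : ℝ) ^ ((α - 1) / 2)) k, ← Real.rpow_mul hn0.le] at h5
    exact h5
  have hsnn : 0 ≤ Real.sqrt (128 * q / b) ^ k := pow_nonneg (Real.sqrt_nonneg _) _
  have hηpos : 0 < (n : ℝ) ^ η := Real.rpow_pos_of_pos hn0 _
  -- total
  have h6 : 20 * ((w : ℝ) + 1) ^ 2 *
      (((K0 * (k * b) : ℕ) : ℝ) * (n : ℝ) ^ η * Real.sqrt (128 * q / b) ^ k) ≤ 1 := by
    have a1 : 20 * ((w : ℝ) + 1) ^ 2 ≤ 20 * ((4 / η + 1) * (n : ℝ) ^ α) ^ 2 := by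
      have := pow_le_pow_left₀ hw0.le hw 2
      linarith
    have a2 : ((K0 * (k * b) : ℕ) : ℝ) * (n : ℝ) ^ η * Real.sqrt (128 * q / b) ^ k ≤
        (K0 * n) * (n : ℝ) ^ η *
          (Real.sqrt (256 * k * C1) ^ k * (n : ℝ) ^ ((α - 1) / 2 * k)) := by
      apply mul_le_mul _ hs hsnn (by positivity)
      exact mul_le_mul_of_nonneg_right hm hηpos.le
    have a3 : 20 * ((w : ℝ) + 1) ^ 2 *
        (((K0 * (k * b) : ℕ) : ℝ) * (n : ℝ) ^ η * Real.sqrt (128 * q / b) ^ k) ≤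
        20 * ((4 / η + 1) * (n : ℝ) ^ α) ^ 2 * ((K0 * n) * (n : ℝ) ^ η *
          (Real.sqrt (256 * k * C1) ^ k * (n : ℝ) ^ ((α - 1) / 2 * k))) :=
      mul_le_mul a1 a2 (by positivity) (by positivity)
    refine a3.trans ?_
    have a4 : ((n : ℝ) ^ α) ^ 2 * n * (n : ℝ) ^ η * (n : ℝ) ^ ((α - 1) / 2 * k) =
        (n : ℝ) ^ (-η) := by
      have b1 : ((n : ℝ) ^ α) ^ 2 = (n : ℝ) ^ (2 * α) := by
        rw [← Real.rpow_natCast ((n : ℝ) ^ α) 2, ← Real.rpow_mul hn0.le]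
        congr 1
        push_cast
        ring
      rw [b1, ← apar_exp k α η hη, Real.rpow_add hn0, Real.rpow_add hn0, Real.rpow_add hn0,
        Real.rpow_one]
    have a5 : 20 * ((4 / η + 1) * (n : ℝ) ^ α) ^ 2 * ((K0 * n) * (n : ℝ) ^ η *
          (Real.sqrt (256 * k * C1) ^ k * (n : ℝ) ^ ((α - 1) / 2 * k))) =
        (20 * (4 / η + 1) ^ 2 * K0 * Real.sqrt (256 * k * C1) ^ k) *
          (((n : ℝ) ^ α) ^ 2 * n * (n : ℝ) ^ η * (n : ℝ) ^ ((α - 1) / 2 * k)) := by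
      ring
    rw [a5, a4, Real.rpow_neg hn0.le]
    rw [← div_eq_mul_inv, div_le_one hηpos]
    exact hC
  have h7 : (1 / (2 * ((w : ℝ) + 1))) ^ 2 / 5 = 1 / (20 * ((w : ℝ) + 1) ^ 2) := by
    field_simp
    norm_num
  rw [h7, le_div_iff₀ (by positivity)]
  linarith

/-- PAR -/
theorem pf_APAR : S_APAR := by
  intro k K0 α hk hK0 hα0 hα
  have hk3 : (3 : ℝ) ≤ k := by exact_mod_cast hk
  have hK1 : (1 : ℝ) ≤ K0 := by exact_mod_cast hK0
  obtain ⟨η, hη⟩ : ∃ η : ℝ, 4 * η = ((k : ℝ) - 2) - α * (k + 4) :=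
    ⟨(((k : ℝ) - 2) - α * (k + 4)) / 4, by ring⟩
  have hη0 : 0 < η := by
    rw [lt_div_iff₀ (by linarith)] at hα
    linarith
  have hη1 : 0 < (k : ℝ) - 1 - η := by nlinarith
  obtain ⟨n1, h1⟩ := apar_ev
    (20 * (4 / η + 1) ^ 2 * K0 * Real.sqrt (256 * k * (2 * (k + 2) / η + 2)) ^ k) η hη0
  obtain ⟨n2, h2⟩ := apar_ev (K0 * (2 * (k : ℝ)) ^ k) ((k : ℝ) - 1 - η) hη1
  refine ⟨n1 + n2 + 2 * k + (4 * K0 + 2), fun n hn => ?_⟩
  have hn1 := h1 n (by omega)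
  have hn2 := h2 n (by omega)
  have hnk : 2 * k ≤ n := by omega
  have hnK : 4 * K0 + 2 ≤ n := by omega
  have hnt : 2 ≤ n := by omega
  have hn0 : (0 : ℝ) < n := by
    have : (2 : ℝ) ≤ n := by exact_mod_cast hnt
    linarith
  have hn1' : (1 : ℝ) ≤ n := by
    have : (2 : ℝ) ≤ n := by exact_mod_cast hnt
    linarith
  obtain ⟨hL1, hL2⟩ := apar_log n hnt
  set L : ℝ := Real.logb 2 n with hLdef
  have hL0 : 0 < L := by linarith
  have ha : 1 ≤ (n : ℝ) ^ α := Real.one_le_rpow hn1' hα0.le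
  obtain ⟨D, hD⟩ : ∃ D : ℝ, D = 2 * (n : ℝ) ^ α + 2 := ⟨_, rfl⟩
  have hD0 : 0 < D := by rw [hD]; positivity
  have hD4 : D ≤ 4 * (n : ℝ) ^ α := by linarith
  obtain ⟨b, hbdef⟩ : ∃ b : ℕ, b = n / k := ⟨_, rfl⟩
  obtain ⟨w, hwdef⟩ : ∃ w : ℕ, w = ⌊D / (η * L)⌋₊ := ⟨_, rfl⟩
  obtain ⟨q, hqdef⟩ : ∃ q : ℕ, q = ⌈(((k : ℝ) + 2) * D / η + (n : ℝ) ^ α + 1) / 2⌉₊ :=
    ⟨_, rfl⟩
  have hkpos : 0 < k := by omega
  have hkb : k * b ≤ n := by rw [hbdef]; exact Nat.mul_div_le n k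
  have hb1 : 1 ≤ b := by
    rw [hbdef]
    exact (Nat.one_le_div_iff hkpos).2 (by omega)
  have hbR : (n : ℝ) / (2 * k) ≤ b := by
    have h3 : n < k * (b + 1) := by
      rw [hbdef]
      exact Nat.lt_mul_div_succ n hkpos
    have h4 : (n : ℝ) < k * (b + 1) := by exact_mod_cast h3
    have h5 : (1 : ℝ) ≤ b := by exact_mod_cast hb1
    rw [div_le_iff₀ (by linarith)]
    nlinarith
  have hb0 : (0 : ℝ) < b := by exact_mod_cast hb1
  have hm : ((K0 * (k * b) : ℕ) : ℝ) ≤ K0 * n := by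
    push_cast
    have : ((k * b : ℕ) : ℝ) ≤ n := by exact_mod_cast hkb
    push_cast at this
    exact mul_le_mul_of_nonneg_left this (by positivity)
  have hwle : (w : ℝ) ≤ D / (η * L) := by
    rw [hwdef]
    exact Nat.floor_le (by positivity)
  have hwL : (w : ℝ) * L ≤ D / η := by
    rw [le_div_iff₀ (by positivity)] at hwle
    rw [le_div_iff₀ hη0]
    linarith
  have hw1 : (w : ℝ) ≤ D / η := by
    have : (w : ℝ) * 1 ≤ w * L := mul_le_mul_of_nonneg_left hL1 (by positivity)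
    linarith
  have hqge : (((k : ℝ) + 2) * D / η + (n : ℝ) ^ α + 1) / 2 ≤ q := by
    rw [hqdef]
    exact Nat.le_ceil _
  have hqlt : (q : ℝ) < (((k : ℝ) + 2) * D / η + (n : ℝ) ^ α + 1) / 2 + 1 := by
    rw [hqdef]
    exact Nat.ceil_lt_add_one (by positivity)
  have hDη : D / η ≤ 4 * (n : ℝ) ^ α / η := div_le_div_of_nonneg_right hD4 hη0.le
  have hNpos : (0 : ℝ) < (2 * (b : ℝ) ^ k) ^ (K0 * (k * b)) := by positivity
  have hn2pow : ∀ y : ℝ, (n : ℝ) ^ y = 2 ^ (L * y) := by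
    intro y
    conv_lhs => rw [hL2]
    rw [← Real.rpow_mul (by norm_num)]
  refine ⟨b, q, w, K0 * (k * b), (n : ℝ) ^ η, 1 / (2 * ((w : ℝ) + 1)),
    (2 * (b : ℝ) ^ k) ^ (K0 * (k * b)) * 2 ^ (-D), 2 * 2 ^ (k * b) / 4 ^ q,
    rfl, hb1, hkb, ?_, by positivity, ?_, Real.one_le_rpow hn1' hη0.le, by positivity,
    ?_, ?_, ?_, ?_, by positivity, ?_, ?_, ?_⟩
  · have h3 : (k : ℝ) * w ≤ 2 * q := by
      have h4 : (k : ℝ) * w ≤ k * (D / η) := mul_le_mul_of_nonneg_left hw1 (by positivity)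
      have h5 : ((k : ℝ) + 2) * D / η = k * (D / η) + 2 * (D / η) := by ring
      have h6 : 0 < D / η := by positivity
      linarith
    exact_mod_cast h3
  · apply le_of_eq
    field_simp
  · rw [div_lt_one (by positivity)]
    have : (0 : ℝ) ≤ w := by positivity
    linarith
  · have h3 : (1 + 1 / (2 * ((w : ℝ) + 1))) ^ w ≤ Real.exp (1 / 2) := by
      have h4 : 1 + 1 / (2 * ((w : ℝ) + 1)) ≤ Real.exp (1 / (2 * ((w : ℝ) + 1))) := by
        have := Real.add_one_le_exp (1 / (2 * ((w : ℝ) + 1)))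
        linarith
      refine (pow_le_pow_left₀ (by positivity) h4 w).trans ?_
      rw [← Real.exp_nat_mul]
      apply Real.exp_le_exp.2
      rw [mul_one_div, div_le_div_iff₀ (by positivity) (by norm_num)]
      linarith
    refine lt_of_le_of_lt h3 ?_
    have h5 : Real.exp (1 / 2) ^ 2 < 2 ^ 2 := by
      rw [← Real.exp_nat_mul]
      have := Real.exp_one_lt_d9
      norm_num at this ⊢
      linarith
    exact lt_of_pow_lt_pow_left₀ 2 (by norm_num) h5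
  · refine apar_main k K0 n b q w α η hk hη0 hη hnt hbR hm ?_ ?_ hn1
    · have e1 : ((k : ℝ) + 2) * D / η = (k + 2) * (D / η) := by ring
      have e2 : ((k : ℝ) + 2) * (D / η) ≤ (k + 2) * (4 * (n : ℝ) ^ α / η) :=
        mul_le_mul_of_nonneg_left hDη (by positivity)
      have e3 : (2 * ((k : ℝ) + 2) / η + 2) * (n : ℝ) ^ α =
          (k + 2) * (4 * (n : ℝ) ^ α / η) / 2 + 2 * (n : ℝ) ^ α := by ring
      rw [e3]
      linarith
    · have e3 : (4 / η + 1) * (n : ℝ) ^ α = 4 * (n : ℝ) ^ α / η + (n : ℝ) ^ α := by ring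
      rw [e3]
      linarith
  · have e1 : ((K0 * (k * b) : ℕ) : ℝ) * (n : ℝ) ^ η ≤ K0 * n * (n : ℝ) ^ η :=
      mul_le_mul_of_nonneg_right hm (Real.rpow_nonneg hn0.le _)
    refine lt_of_le_of_lt e1 ?_
    have e2 : ((n : ℝ) / (2 * k)) ^ k ≤ (b : ℝ) ^ k := pow_le_pow_left₀ (by positivity) hbR k
    have e3 : (n : ℝ) ^ k = n ^ ((k : ℝ) - 1 - η) * (n * (n : ℝ) ^ η) := by
      rw [← Real.rpow_natCast (n : ℝ) k]
      nth_rewrite 3 [← Real.rpow_one (n : ℝ)]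
      rw [← Real.rpow_add hn0, ← Real.rpow_add hn0]
      congr 1
      ring
    have e4 : K0 * n * (n : ℝ) ^ η ≤ ((n : ℝ) / (2 * k)) ^ k := by
      rw [div_pow, le_div_iff₀ (by positivity), e3]
      have := mul_le_mul_of_nonneg_right hn2
        (show 0 ≤ n * (n : ℝ) ^ η by positivity)
      calc K0 * n * (n : ℝ) ^ η * (2 * (k : ℝ)) ^ k
          = K0 * (2 * (k : ℝ)) ^ k * (n * (n : ℝ) ^ η) := by ring
        _ ≤ _ := this
    have e5 : 0 < (b : ℝ) ^ k := by positivity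
    linarith
  · intro j hj
    have h3 : (2 : ℝ) ^ (-D) * ((n : ℝ) ^ η) ^ j ≤ 1 := by
      have : (2 * (b : ℝ) ^ k) ^ (K0 * (k * b)) * ((2 : ℝ) ^ (-D) * ((n : ℝ) ^ η) ^ j) ≤
          (2 * (b : ℝ) ^ k) ^ (K0 * (k * b)) * 1 := by
        rw [mul_one, ← mul_assoc]
        exact hj
      exact le_of_mul_le_mul_left this hNpos
    have h4 : ((n : ℝ) ^ η) ^ j = 2 ^ (L * (η * j)) := by
      rw [← Real.rpow_natCast, ← Real.rpow_mul hn0.le]
      exact hn2pow _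
    rw [h4, ← Real.rpow_add (by norm_num)] at h3
    have h5 : -D + L * (η * j) ≤ 0 := by
      by_contra hc
      push Not at hc
      have := Real.one_lt_rpow (by norm_num : (1 : ℝ) < 2) hc
      linarith
    rw [hwdef]
    apply Nat.le_floor
    rw [le_div_iff₀ (by positivity)]
    linarith
  · have h3 : (2 : ℝ) * (2 ^ ((n : ℝ) ^ α) * ((2 * (b : ℝ) ^ k) ^ (K0 * (k * b)) * 2 ^ (-D))) =
        2 ^ (1 + (n : ℝ) ^ α + -D) * (2 * (b : ℝ) ^ k) ^ (K0 * (k * b)) := by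
      rw [Real.rpow_add (by norm_num), Real.rpow_add (by norm_num), Real.rpow_one]
      ring
    rw [h3]
    apply mul_le_mul_of_nonneg_right _ hNpos.le
    apply Real.rpow_le_rpow_of_exponent_le (by norm_num)
    linarith
  · -- the last line
    set Z : ℝ := 1 + ((K0 * (k * b) : ℕ) : ℝ) * (2 * (b : ℝ) ^ k) with hZdef
    have hZ0 : 0 < Z := by positivity
    have hZ : 2 * Z ≤ (n : ℝ) ^ (k + 2) := by
      have g1 : (b : ℝ) ^ k ≤ (n : ℝ) ^ k := by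
        apply pow_le_pow_left₀ hb0.le
        have : b ≤ n := by rw [hbdef]; exact Nat.div_le_self n k
        exact_mod_cast this
      have g2 : ((K0 * (k * b) : ℕ) : ℝ) * (2 * (b : ℝ) ^ k) ≤ (K0 * n) * (2 * (n : ℝ) ^ k) :=
        mul_le_mul hm (by linarith) (by positivity) (by positivity)
      have g3 : (1 : ℝ) ≤ (n : ℝ) ^ k * n := by
        have : (1 : ℝ) ≤ (n : ℝ) ^ (k + 1) := one_le_pow₀ hn1'
        rwa [pow_succ] at this
      have g4 : (4 * (K0 : ℝ) + 2) ≤ n := by exact_mod_cast hnK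
      have g5 : (n : ℝ) ^ (k + 2) = (n : ℝ) ^ k * n * n := by ring
      rw [g5, hZdef]
      nlinarith [mul_le_mul_of_nonneg_left g4 (show 0 ≤ (n : ℝ) ^ k * n by positivity)]
    have h3 : (2 : ℝ) ^ w * (2 ^ ((n : ℝ) ^ α) * (Z ^ w * (2 * 2 ^ (k * b) / 4 ^ q))) =
        (2 * Z) ^ w * 2 ^ ((n : ℝ) ^ α) * 2 / 4 ^ q * 2 ^ (k * b) := by
      rw [mul_pow]
      ring
    rw [h3]
    have h4 : (2 * Z) ^ w ≤ 2 ^ (((k : ℝ) + 2) * (w * L)) := by
      refine (pow_le_pow_left₀ (by positivity) hZ w).trans (le_of_eq ?_)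
      rw [← pow_mul, ← Real.rpow_natCast (n : ℝ), hn2pow]
      congr 1
      push_cast
      ring
    have h5 : (4 : ℝ) ^ q = 2 ^ (2 * (q : ℝ)) := by
      rw [Real.rpow_mul (by norm_num), Real.rpow_natCast]
      norm_num
    have h6 : (2 * Z) ^ w * 2 ^ ((n : ℝ) ^ α) * 2 ≤ 4 ^ q := by
      rw [h5]
      calc (2 * Z) ^ w * 2 ^ ((n : ℝ) ^ α) * 2
          ≤ 2 ^ (((k : ℝ) + 2) * (w * L)) * 2 ^ ((n : ℝ) ^ α) * 2 := by gcongr
        _ = 2 ^ (((k : ℝ) + 2) * (w * L) + (n : ℝ) ^ α + 1) := by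
            rw [Real.rpow_add (by norm_num), Real.rpow_add (by norm_num), Real.rpow_one]
        _ ≤ 2 ^ (2 * (q : ℝ)) := by
            apply Real.rpow_le_rpow_of_exponent_le (by norm_num)
            have g1 : ((k : ℝ) + 2) * (w * L) ≤ (k + 2) * (D / η) :=
              mul_le_mul_of_nonneg_left hwL (by positivity)
            have g2 : ((k : ℝ) + 2) * D / η = (k + 2) * (D / η) := by ring
            rw [g2] at hqge
            linarith
    have h7 : (2 * Z) ^ w * 2 ^ ((n : ℝ) ^ α) * 2 / 4 ^ q ≤ 1 := by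
      rw [div_le_one (by positivity)]
      exact h6
    calc (2 * Z) ^ w * 2 ^ ((n : ℝ) ^ α) * 2 / 4 ^ q * (2 : ℝ) ^ (k * b)
        ≤ 1 * 2 ^ (k * b) := mul_le_mul_of_nonneg_right h7 (by positivity)
      _ = 2 ^ (k * b) := one_mul _

end Pool.Agent.H63.MO
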